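import Pool.Agent.Lib.MP_688fd0_co.SQ7.H71.Dart
import Pool.Agent.Lib.MP_688fd0_co.SQ7.H25.Word

/-!
Type C2, B1-FULL: interface of the board (tokens, visits, the statement COSET).

Even vertices = `Γ`, odd vertices = complement. Letters `al i` (heights of `t`, `t'`), `be j` (`b`, `b⁻¹`), `T` = group
generated by the `al i * (be j)⁻¹`; `lv x < L` = level of the even vertex `x` in its coset `x T`. One level: `x`, `x * al i`,
`x * al i * (be j)⁻¹`. COLUMNS = even vertices of level `0`.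

A visit `v`: the edge `{v.y, v.y * be v.j}` is removed (arrival = the odd vertex `v.y * be v.j`), the hole makes `v.m` units
of the transparent run and possibly one more level with the letter `v.tw`; exit = `v.out`. Tokens: `inl c` = bottom of the
column `c`, `inr t` = on the source side the exit of the visit `t`, on the target side its arrival. `K` maps
{bottoms, exits} to {tops, arrivals}; `O` maps tops to bottoms (`c ↦ c * g`) and the arrival `t` to the exit `t - 1`; the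
arrival `0` and the exit `n - 1` are joined by the fictitious edge; the visit `n` is virtual (its edge is not removed).
-/

set_option autoImplicit false

namespace Pool.Agent.Lib.MP_688fd0_co.SQ7

open Equiv Pool.Agent.Lib.MP_688fd0_co.OSF Pool.Agent.Lib.MP_688fd0_co.SQ4.H49

/-- Letters of one level. -/
abbrev Lt := Bool × Bool

/-- The base letters. -/
structure Lets (G : Type) where
  al : Bool → G
  be : Bool → G

variable {G : Type} [Group G]

/-- The step of one level. -/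
def Lets.sv (S : Lets G) (x : Lt) : G := S.al x.1 * (S.be x.2)⁻¹

/-- The letter of the hole (the other edge of the same vertex). -/
def flt (x : Lt) : Lt := (!x.1, x.2)

/-- Levels. -/
structure Circ (S : Lets G) (Γ T : Subgroup G) (L : ℕ) (lv : G → ℕ) : Prop where
  ne : S.al false ≠ S.al true
  mem : ∀ x, S.sv x ∈ T
  le : T ≤ Γ
  odd_al : ∀ i, S.al i ∉ Γ
  odd_be : ∀ j, S.be j ∉ Γ
  two : ∀ x y : G, x ∉ Γ → y ∉ Γ → x⁻¹ * y ∈ Γ
  pos : 0 < L
  lt : ∀ x, lv x < L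
  step : ∀ x ∈ Γ, ∀ s, lv (x * S.sv s) = (lv x + 1) % L

/-- The transparent run: a word of period `l`; sea letters `r n`, hole letters `flt (r n)`, both with the product `lam`. -/
structure Run (S : Lets G) (T : Subgroup G) (l : ℕ) (r : ℕ → Lt) (lam : G) : Prop where
  pos : 0 < l
  per : ∀ n, r (l + n) = r n
  sea : H25.pw (fun n => S.sv (r n)) l = lam
  hol : H25.pw (fun n => S.sv (flt (r n))) l = lam
  cen : ∀ x ∈ T, x * lam = lam * x

/-- A visit. -/
structure Vst (G : Type) where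
  y : G
  j : Bool
  m : ℕ
  tw : Option Lt
  act : Bool
  a : Bool → G

/-- The exit of a visit; `z` = unit of the run. -/
def Vst.out (S : Lets G) (z : G) (v : Vst G) : G :=
  v.y * z ^ v.m * (match v.tw with
    | none => 1
    | some s => S.sv s)

/-- The left factor of a twisted visit. -/
def Vst.w (S : Lets G) (v : Vst G) : G :=
  match v.tw with
  | none => 1
  | some s => v.y * S.al s.1 * (S.al (!s.1))⁻¹ * v.y⁻¹

/-- The column for a choice of the bits. -/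
def Vst.col (v : Vst G) (c : Bool) : G := v.a (v.act && c)

/-- Columns. -/
abbrev Col (Γ : Subgroup G) (lv : G → ℕ) := {x : G // x ∈ Γ ∧ lv x = 0}

/-- Tokens. -/
abbrev Tok (Γ : Subgroup G) (lv : G → ℕ) (n : ℕ) := Col Γ lv ⊕ Fin (n + 1)

section

variable (S : Lets G) (Γ T : Subgroup G) (L : ℕ) (lv : G → ℕ)

/-- The permutation of one visit, columns `a` and `w`. -/
def evis [DecidableEq G] (n : ℕ) (t : Fin (n + 1)) (tw : Bool) (a w : Col Γ lv) : Perm (Tok Γ lv n) :=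
  (if tw then swap (Sum.inl a) (Sum.inl w) else 1) * swap (Sum.inr t) (Sum.inl a)

/-- The product of the first `k` permutations (the last one on the left). -/
def kpr {D : Type} (E : ℕ → Perm D) : ℕ → Perm D
  | 0 => 1
  | k + 1 => E k * kpr E k

/-- The permutation of the thread: `0 ↦ n - 1`, `t ↦ t - 1`, `n ↦ n`. -/
def thr (n : ℕ) (t : Fin (n + 1)) : Fin (n + 1) :=
  if t.1 = n then t else if t.1 = 0 then ⟨n - 1, by omega⟩ else ⟨t.1 - 1, by omega⟩

/-- A PLAN for the whole graph, without the connectivity: visits, columns, levels, short frames. `l₁, B` : words, `W` = gap,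
`l! ∣ f`, `u = l * f` levels per unit of the run, `z = lam ^ f` in `Nv` (`lam` itself is only central in `T`). -/
structure Pln (A : Set G) (Nv : Subgroup G) (l : ℕ) (r : ℕ → Lt) (lam : G) (f l₁ B W : ℕ) (g : G) (n : ℕ)
    (v : ℕ → Vst G) (d : ℕ → G) (σ : ℕ → ℕ) : Prop where
  circ : Circ S Γ T L lv
  run : Run S T l r lam
  fpos : 0 < f
  hf : l.factorial ∣ f
  lamN : lam ^ f ∈ Nv
  hl : l₁ ∣ l * f
  al : ∀ i, S.al i ∈ A
  be : ∀ j, S.be j ∈ A
  sym : ∀ x ∈ A, x⁻¹ ∈ A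
  pos : 0 < n
  dA : ∀ t < n, d t ∈ A
  yΓ : ∀ t ≤ n, (v t).y ∈ Γ
  step : ∀ t < n, (v (t + 1)).y * S.be (v (t + 1)).j = (v t).out S (lam ^ f) * d t
  last : (v n).m = 0 ∧ (v n).tw = none ∧ (v n).act = true
  col : ∀ t ≤ n, ∀ c, ((v t).a c)⁻¹ * (v t).y ∈ T ∧ lv ((v t).a c) = 0
  colw : ∀ t ≤ n, ∀ c, lv ((v t).w S * (v t).a c) = 0
  word : ∀ t ≤ n, ∀ c, ∃ w : List Lt, w.length ≤ B ∧ w.length ≡ lv (v t).y [MOD l₁] ∧
    ((w.map S.sv).prod)⁻¹ * (((v t).a c)⁻¹ * (v t).y) ∈ Nv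
  gT : g ∈ T ∧ ∀ x ∈ Γ, lv x = 0 → lv (x * g) = 0
  gword : ∃ w : List Lt, w.length ≤ B ∧ w.length ≡ L [MOD l₁] ∧ ((w.map S.sv).prod)⁻¹ * g ∈ Nv
  low : ∀ t ≤ n, W ≤ lv (v t).y
  high : ∀ t ≤ n, lv (v t).y + l * f * (v t).m + W ≤ L
  sep : ∀ t ≤ n, ∀ t' ≤ n, t ≠ t' → (v t).y⁻¹ * (v t').y ∈ T →
    lv (v t).y + l * f * (v t).m + W ≤ lv (v t').y ∨ lv (v t').y + l * f * (v t').m + W ≤ lv (v t).y
  σlt : ∀ k ≤ n, σ k ≤ n
  σinj : ∀ k ≤ n, ∀ k' ≤ n, σ k = σ k' → k = k'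
  σmon : ∀ k < n, lv (v (σ k)).y ≤ lv (v (σ (k + 1))).y

/-- Words: Nv is the level part of `T`, every element of `T` is determined modulo `Nv` and by its level; closed words. -/
structure Wrd (Nv : Subgroup G) (l₁ D : ℕ) : Prop where
  circ : Circ S Γ T L lv
  le : Nv ≤ T
  cen : ∀ x ∈ T, ∀ y ∈ Nv, x * y = y * x
  one : ∀ x ∈ Γ, ∀ y ∈ Nv, lv (x * y) = lv x → y = 1
  cl : ∀ k, D ≤ k → l₁ ∣ k → ∃ w : List Lt, w.length = k ∧ (w.map S.sv).prod ∈ Nv
  inv : ∀ s : Lt, ∃ w : List Lt, w.length ≤ D ∧ l₁ ∣ w.length + 1 ∧ S.sv s * (w.map S.sv).prod ∈ Nv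

end

/-- The columns of a visit. -/
def Vst.cl {Γ : Subgroup G} {lv : G → ℕ} (v : Vst G) (h : ∀ c, v.a c ∈ Γ ∧ lv (v.a c) = 0) (c : Bool) : Col Γ lv :=
  ⟨v.col c, h _⟩

/-- ROW COSET. For every choice `c` of the bits there is a 2-factor (with one fictitious edge) whose connections are described
by the permutation `O * K` of the tokens. `W` = gap, a function of `l₁, B, D` and the length of a period `l`. -/
def CosetS : Prop :=
  ∃ W₀ : ℕ → ℕ → ℕ → ℕ → ℕ, (∀ l₁ B D l, W₀ l₁ B D l ≤ (l₁ + B + D + l + 10) ^ 20) ∧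
  ∀ (G : Type) [Group G] [Finite G] [DecidableEq G] (S : Lets G) (Γ T : Subgroup G) (L : ℕ) (lv : G → ℕ) (A : Set G)
    (Nv : Subgroup G) (l : ℕ) (r : ℕ → Lt) (lam : G) (f l₁ B D W : ℕ) (g : G) (n : ℕ) (v : ℕ → Vst G) (d : ℕ → G)
    (σ : ℕ → ℕ)
    (hw : Wrd S Γ T L lv Nv l₁ D) (hp : Pln S Γ T L lv A Nv l r lam f l₁ B W g n v d σ), W₀ l₁ B D l ≤ W →
    ∀ (c : ℕ → Bool) (O K : Perm (Tok Γ lv n)) (E : ℕ → Perm (Tok Γ lv n)),
      (∀ x y : Col Γ lv, y.1 = x.1 * g → O (Sum.inl x) = Sum.inl y) →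
      (∀ t, O (Sum.inr t) = Sum.inr (thr n t)) →
      (∀ k ≤ n, ∀ (t : Fin (n + 1)) (a w : Col Γ lv), t.1 = σ k → a.1 = (v t.1).col (c t.1) →
        w.1 = (v t.1).w S * a.1 → E k = evis Γ lv n t (v t.1).tw.isSome a w) →
      K = kpr E (n + 1) →
      ∃ (e : G × Bool → G × Bool) (real : Tok Γ lv n → G × Bool) (z : G), Inv e ∧
        (∀ x, x ≠ real (Sum.inr ⟨n - 1, by omega⟩) → x ≠ e (real (Sum.inr ⟨n - 1, by omega⟩)) → x.1⁻¹ * (e x).1 ∈ A) ∧
        (real (Sum.inr ⟨n - 1, by omega⟩)).1⁻¹ * z ∈ A ∧ Con H71.fl e (z, true) (real (Sum.inr (Fin.last n))) ∧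
        (∀ x, Con H71.fl e (real x) (real (O (K x)))) ∧ ∀ x, ∃ y, Con H71.fl e x (real y)

end Pool.Agent.Lib.MP_688fd0_co.SQ7
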