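import Pool.Agent.Lib.MP_688fd0_co.SQ7.Iface
import Pool.Agent.Lib.MP_688fd0_co.SQ5.H23.Shrink
import Pool.Agent.Lib.MP_688fd0_co.SQ6.Top

/-!
Type C2, B1-FULL: group data (rows GRP, WRD) and the numbers.
-/

set_option autoImplicit false

namespace Pool.Agent.Lib.MP_688fd0_co.SQ7

open Equiv Pool.Agent.Lib.MP_688fd0_co.OSF Pool.Agent.Lib.MP_688fd0_co.SQ4.H49

variable {G : Type} [Group G]

/-- The group data. `S` = base letters, `D` = the letters outside of the tower group, `T` = group of one coset, `V` = columns,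
`Nv` = level part, `L = δ * |Nv|` levels, `lev` = the level map. -/
structure Dat (N C : Subgroup G) (eps : G →* ℤˣ) (k P : ℕ) (A : Set G) (S : Lets G) (D : Set G) (T V Nv : Subgroup G)
    (L δ : ℕ) (lev : G → ZMod L) : Prop where
  gn : SQ3.GN N C eps k P
  symA : ∀ x ∈ A, x⁻¹ ∈ A
  neg : ∀ x ∈ A, eps x = -1
  al : ∀ i, S.al i ∈ A
  be : ∀ j, S.be j ∈ A
  ne : S.al false ≠ S.al true
  al_inv : ∀ i, ∃ i', (S.al i)⁻¹ = S.al i'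
  be_inv : S.be true = (S.be false)⁻¹
  /-- `t' = t⁻¹`, or all letters are involutions -/
  kind : S.al true = (S.al false)⁻¹ ∨ ∀ x ∈ A, x * x = 1
  DA : D ⊆ A
  Dn : D.Nonempty
  Dinv : ∀ x ∈ D, x⁻¹ ∈ D
  DG : ∀ x ∈ D, x ∉ Subgroup.closure (Set.range S.al ∪ Set.range S.be)
  gen : Subgroup.closure (D ∪ (Set.range S.al ∪ Set.range S.be)) = ⊤
  hT : ∀ x, x ∈ T ↔ x ∈ Subgroup.closure (Set.range S.al ∪ Set.range S.be) ∧ eps x = 1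
  Tcl : T = Subgroup.closure (Set.range S.sv)
  VT : V ≤ T
  Vn : ∀ x ∈ T, ∀ y ∈ V, x * y * x⁻¹ ∈ V
  Vs : ∀ s s', S.sv s * (S.sv s')⁻¹ ∈ V
  Vmin : ∀ U : Subgroup G, (∀ x ∈ T, ∀ y ∈ U, x * y * x⁻¹ ∈ U) → (∀ s s', S.sv s * (S.sv s')⁻¹ ∈ U) → V ≤ U
  Nv_mem : ∀ x, x ∈ Nv ↔ x ∈ N ∧ x ∈ T ∧ (orderOf x).Coprime (Nat.card V)
  Nv_cen : ∀ x ∈ T, ∀ y ∈ Nv, x * y = y * x
  NvV : ∀ x ∈ Nv, x ∈ V → x = 1
  /-- the level part contains everything prime to `|C|` -/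
  Nv_C : ∀ x ∈ N, x ∈ T → (orderOf x).Coprime (Nat.card C) → x ∈ Nv
  /-- `N ⊓ T = Nv × (N ⊓ V)` -/
  NT : ∀ x ∈ N, x ∈ T → ∃ y ∈ Nv, ∃ z ∈ N ⊓ V, x = y * z
  P_dvd : P ∣ Nat.card Nv
  Lpos : 0 < L
  hL : L = δ * Nat.card Nv
  δk : 0 < δ ∧ δ ≤ k
  Vk : Nat.card V ≤ k * Nat.card (N ⊓ V : Subgroup G)
  lev_mul : ∀ x ∈ T, ∀ y ∈ T, lev (x * y) = lev x + lev y
  lev_sv : ∀ s, lev (S.sv s) = 1
  lev_V : ∀ x ∈ T, lev x = 0 ↔ x ∈ V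

/-- The choice of the letters. -/
structure Bas (N C : Subgroup G) (eps : G →* ℤˣ) (k P : ℕ) (A : Set G) (S : Lets G) (D : Set G) : Prop where
  gn : SQ3.GN N C eps k P
  symA : ∀ x ∈ A, x⁻¹ ∈ A
  neg : ∀ x ∈ A, eps x = -1
  al : ∀ i, S.al i ∈ A
  be : ∀ j, S.be j ∈ A
  ne : S.al false ≠ S.al true
  al_inv : ∀ i, ∃ i', (S.al i)⁻¹ = S.al i'
  be_inv : S.be true = (S.be false)⁻¹
  kind : S.al true = (S.al false)⁻¹ ∨ ∀ x ∈ A, x * x = 1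
  sim : SQD.Sim N C (S.al false) (S.al true)
  hgt : ∀ i j, P ∣ orderOf (S.al i * (S.be j)⁻¹)
  DA : D ⊆ A
  Dn : D.Nonempty
  Dinv : ∀ x ∈ D, x⁻¹ ∈ D
  DG : ∀ x ∈ D, x ∉ Subgroup.closure (Set.range S.al ∪ Set.range S.be)
  gen : Subgroup.closure (D ∪ (Set.range S.al ∪ Set.range S.be)) = ⊤

/-- ROW GRPA: the letters (if there are no letters outside of the tower group: `SQ6.twoH`). -/
def GrpAS : Prop :=
  ∃ c₀ : ℕ, ∀ (G : Type) [Group G] [Finite G] (N C : Subgroup G) (eps : G →* ℤˣ) (k P : ℕ) (A : Set G) (c₁ : ℕ),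
    SQD.Refl N C eps k P A c₁ → (∃ s ∈ A, ∃ s' ∈ A, s ≠ s' ∧ SQD.Sim N C s s') →
    2 ^ ((k + (Nat.card G).primeFactorsList.length) ^ c₀) ≤ P →
    Lst A ∨ ∃ (S : Lets G) (D : Set G), Bas N C eps k P A S D

/-- ROW GRPB: the groups and the level map. -/
def GrpBS : Prop :=
  ∀ (G : Type) [Group G] [Finite G] (N C : Subgroup G) (eps : G →* ℤˣ) (k P : ℕ) (A : Set G) (S : Lets G) (D : Set G),
    Bas N C eps k P A S D → ∃ (T V Nv : Subgroup G) (L δ : ℕ) (lev : G → ZMod L), Dat N C eps k P A S D T V Nv L δ lev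

/-- ROW GRP (the first case: two heights generate everything, `TwoHS`). -/
def GrpS : Prop :=
  ∃ c₀ : ℕ, ∀ (G : Type) [Group G] [Finite G] (N C : Subgroup G) (eps : G →* ℤˣ) (k P : ℕ) (A : Set G) (c₁ : ℕ),
    SQD.Refl N C eps k P A c₁ → (∃ s ∈ A, ∃ s' ∈ A, s ≠ s' ∧ SQD.Sim N C s s') →
    2 ^ ((k + (Nat.card G).primeFactorsList.length) ^ c₀) ≤ P →
    Lst A ∨ ∃ (S : Lets G) (D : Set G) (T V Nv : Subgroup G) (L δ : ℕ) (lev : G → ZMod L),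
      Dat N C eps k P A S D T V Nv L δ lev

theorem grp_of (hA : GrpAS) (hB : GrpBS) : GrpS := by
  obtain ⟨c₀, hA⟩ := hA
  refine ⟨c₀, fun G _ _ N C eps k P A c₁ h1 h2 h3 => ?_⟩
  rcases hA G N C eps k P A c₁ h1 h2 h3 with h | ⟨S, D, h⟩
  · exact Or.inl h
  · obtain ⟨T, V, Nv, L, δ, lev, h⟩ := hB G N C eps k P A S D h
    exact Or.inr ⟨S, D, T, V, Nv, L, δ, lev, h⟩

/-- ROW WRD. Words, run, and a short word for a generator `g₀` of `N ⊓ V`; all numbers are at most `2 ^ ((k + Ω) ^ e)`, `l₁` is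
small. -/
def WrdS : Prop :=
  ∀ c₁ : ℕ, ∃ e : ℕ, ∀ (G : Type) [Group G] [Finite G] (N C : Subgroup G) (eps : G →* ℤˣ) (k P : ℕ) (A : Set G) (S : Lets G)
    (D : Set G) (T V Nv : Subgroup G) (L δ : ℕ) (lev : G → ZMod L), SQD.Refl N C eps k P A c₁ →
    Dat N C eps k P A S D T V Nv L δ lev →
    ∃ (l₁ B D₁ l : ℕ) (r : ℕ → Lt) (lam g₀ : G) (f : ℕ), Run S T l r lam ∧ 0 < f ∧ l.factorial ∣ f ∧ lam ^ f ∈ Nv ∧
      l₁ ∣ l * f ∧ 0 < l₁ ∧ δ ∣ l₁ ∧ (Nat.card Nv).Coprime l₁ ∧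
      (∀ m, D₁ ≤ m → l₁ ∣ m → ∃ w : List Lt, w.length = m ∧ (w.map S.sv).prod ∈ Nv) ∧
      (∀ s : Lt, ∃ w : List Lt, w.length ≤ D₁ ∧ l₁ ∣ w.length + 1 ∧ S.sv s * (w.map S.sv).prod ∈ Nv) ∧
      Subgroup.zpowers g₀ = N ⊓ V ∧
      (∃ w : List Lt, w.length ≤ B ∧ w.length ≡ L [MOD l₁] ∧ ((w.map S.sv).prod)⁻¹ * g₀ ∈ Nv) ∧
      (Nat.card (N ⊓ V : Subgroup G) = 1 → l₁ = δ) ∧
      l₁ ≤ (k + (Nat.card G).primeFactorsList.length) ^ e ∧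
      B + D₁ + l * f ≤ 2 ^ ((k + (Nat.card G).primeFactorsList.length) ^ e)

end Pool.Agent.Lib.MP_688fd0_co.SQ7
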